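import Pool.Agent.H34.CGS.Stmts

/-!
Board cgs (MP_286349_an), helper34: the stronger forms of the last rows.
-/

set_option autoImplicit false

noncomputable section

open Filter
open scoped Topology

namespace Pool.CGS

open Pool.CGR

/-- The conjugate variables of `y` exist, and their projections to `L²(x)` are limits of cyclic
gradients of polynomials at `x`. -/
def Proj {m : ℕ} {A : Type} [CStarAlgebra A] (τ : A →ₗ[ℂ] ℂ) (x y : Fin m → A) : Prop :=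
  ∀ ε : ℝ, 0 < ε → ∃ (G : Fin m → (List (Fin m) →₀ ℂ)) (Q : List (Fin m) →₀ ℂ),
    ∀ (i : Fin m) (P : List (Fin m) →₀ ℂ),
      ‖dp τ y i P - τ (pe y (G i) * pe y P)‖ ≤ ε * n2 τ (pe y P) ∧
      ‖τ (pe y (G i) * pe x P) - τ (cp x i Q * pe x P)‖ ≤ ε * n2 τ (pe x P)

/-- `Yes` at `x + s S` gives `Proj`. -/
theorem proj_of_yes (hP : PALStmt) (hQ : QEXStmt) (m : ℕ) (A : Type) [CStarAlgebra A]
    (τ : A →ₗ[ℂ] ℂ) (hτ : IsTrace τ) (x S : Fin m → A) (h : IsSemi τ x S) (s : ℂ)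
    (hy : Yes τ (sh x S s)) : Proj τ x (sh x S s) := by
  intro ε hε
  obtain ⟨H, hH⟩ := hy ε hε
  obtain ⟨Q, hQ'⟩ := hQ m A τ hτ x S h s H
  choose G hG using fun i => (hP (Fin m) A τ (sh x S s)).2.2.2.2.1 i H
  refine ⟨G, Q, fun i P => ⟨?_, ?_⟩⟩
  · rw [hG]
    exact hH i P
  · rw [hG, hQ', sub_self, norm_zero]
    exact mul_nonneg hε.le (Real.sqrt_nonneg _)

/-- `Lim` at `x + s S` gives `Proj`. -/
theorem proj_of_lim (hP : PALStmt) (hQ : QEXStmt) (hT : TWOStmt) (m : ℕ) (A : Type)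
    [CStarAlgebra A] (τ : A →ₗ[ℂ] ℂ) (hτ : IsTrace τ) (x S : Fin m → A) (h : IsSemi τ x S)
    (s : ℂ) (J : Fin m → A) (hJ : ∀ (i : Fin m) (P : List (Fin m) →₀ ℂ),
      τ (J i * pe (sh x S s) P) = dp τ (sh x S s) i P) (H : ℕ → (List (Fin m) →₀ ℂ))
    (hH : ∀ i, Tendsto (fun n => cp (sh x S s) i (H n)) atTop (𝓝 (J i))) :
    Proj τ x (sh x S s) := by
  refine proj_of_yes hP hQ m A τ hτ x S h s ?_
  intro ε hε
  have hev : ∀ᶠ n in atTop, ∀ i : Fin m, ‖cp (sh x S s) i (H n) - J i‖ < ε := by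
    rw [eventually_all]
    intro i
    have := (tendsto_iff_norm_sub_tendsto_zero.1 (hH i)).eventually (gt_mem_nhds hε)
    exact this
  obtain ⟨n, hn⟩ := hev.exists
  refine ⟨H n, fun i P => ?_⟩
  obtain ⟨h1, -, h3, -, -⟩ := hT A τ hτ
  rw [← hJ, ← map_sub, ← sub_mul]
  refine (h1 _ _).trans ?_
  refine mul_le_mul_of_nonneg_right ?_ (h3 _).1
  rw [← neg_sub, (h3 _).2.2.2]
  exact (h3 _).2.1.trans (hn i).le

/-- The projections of the conjugate variables of `x + s S` tend to the conjugate variables of `x`. -/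
theorem yes_of_proj (hP : PALStmt) (hT : TWOStmt) (hR : RZXStmt) (hC : PCTStmt) (hK : KEYStmt)
    (m : ℕ) (A : Type) [CStarAlgebra A] (τ : A →ₗ[ℂ] ℂ) (hτ : IsTrace τ) (x S : Fin m → A)
    (hx : ∀ i, IsSelfAdjoint (x i)) (hS : ∀ i, IsSelfAdjoint (S i)) (h : IsSemi τ x S)
    (hc : HasConj τ x)
    (hs : ∀ δ : ℝ, 0 < δ → ∃ s : ℝ, 0 < s ∧ s < δ ∧ Proj τ x (sh x S s)) : Yes τ x := by
  intro ε hε
  obtain ⟨δ, hδ, hδε⟩ : ∃ δ : ℝ, 0 < δ ∧ 6 * δ ≤ ε := ⟨ε / 6, by positivity, by linarith⟩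
  obtain ⟨T1, T2, T3, T4, T5⟩ := hT A τ hτ
  obtain ⟨P1, P2, P3, -, -, P6⟩ := hP (Fin m) A τ x
  obtain ⟨C, hC'⟩ := hc
  have hRi : ∀ i : Fin m, ∃ R : List (Fin m) →₀ ℂ,
      ∀ P, ‖dp τ x i P - τ (pe x R * pe x P)‖ ≤ δ * n2 τ (pe x P) := by
    intro i
    exact hR m A τ hτ x hx
      { toFun := dp τ x i, map_add' := P2 i, map_smul' := fun r P => ((P3 r P).2 i).1 } C
      (hC' i) δ hδ
  choose R hR' using hRi
  have hpc : ∀ i : Fin m, ∃ s₀ : ℝ, 0 < s₀ ∧ ∀ s : ℝ, |s| < s₀ →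
      ‖pe (sh x S s) (R i) - pe x (R i)‖ ≤ δ := fun i => hC m A x S (R i) δ hδ
  choose s₀ hs₀ hs₁ using hpc
  obtain ⟨s₂, hs₂, hs₂'⟩ : ∃ s₂ : ℝ, 0 < s₂ ∧ ∀ i, s₂ ≤ s₀ i := by
    rcases Nat.eq_zero_or_pos m with h0 | h0
    · subst h0
      exact ⟨1, one_pos, fun i => i.elim0⟩
    · haveI : Nonempty (Fin m) := ⟨⟨0, h0⟩⟩
      obtain ⟨i₀, hi₀⟩ := Finite.exists_min s₀
      exact ⟨s₀ i₀, hs₀ i₀, hi₀⟩
  obtain ⟨s, hs0, hs1, hpr⟩ := hs s₂ hs₂
  obtain ⟨G, Q, hG⟩ := hpr δ hδ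
  refine ⟨Q, fun i P => ?_⟩
  have hxs : ∀ i, IsSelfAdjoint (sh x S s i) := by
    intro i
    refine (hx i).add ?_
    rw [IsSelfAdjoint, star_smul, (hS i).star_eq]
    simp
  have hcl : ‖pe (sh x S s) (R i) - pe x (R i)‖ ≤ δ :=
    hs₁ i s (by rw [abs_of_pos hs0]; exact hs1.trans_le (hs₂' i))
  have hK' := hK m A τ hτ x S hx h i (R i) δ hδ.le (hR' i) s
  obtain ⟨Q1, Q2, Q3, -, -, Q6⟩ := hP (Fin m) A τ (sh x S s)
  -- the distance of `G_i(x^s)` and `R_i(x^s)`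
  have hZ : n2 τ (pe (sh x S s) (G i) - pe (sh x S s) (R i)) ≤ 3 * δ := by
    rw [← (Q1 (G i) (R i)).2]
    obtain ⟨P₀, hP₀⟩ := Q6 hxs (G i - R i)
    have e1 := (hG i P₀).1
    have e2 := hK' P₀
    have e3 : ‖τ (pe (sh x S s) (G i - R i) * pe (sh x S s) P₀)‖ ≤
        3 * δ * n2 τ (pe (sh x S s) P₀) := by
      have e4 : ‖τ ((pe (sh x S s) (R i) - pe x (R i)) * pe (sh x S s) P₀)‖ ≤
          δ * n2 τ (pe (sh x S s) P₀) :=
        (T1 _ _).trans (mul_le_mul_of_nonneg_right ((T3 _).2.1.trans hcl) (T3 _).1)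
      have : τ (pe (sh x S s) (G i - R i) * pe (sh x S s) P₀) =
          (dp τ (sh x S s) i P₀ - τ (pe x (R i) * pe (sh x S s) P₀)) -
          (dp τ (sh x S s) i P₀ - τ (pe (sh x S s) (G i) * pe (sh x S s) P₀)) -
          τ ((pe (sh x S s) (R i) - pe x (R i)) * pe (sh x S s) P₀) := by
        rw [(Q1 (G i) (R i)).2, sub_mul, map_sub, sub_mul, map_sub]
        ring
      rw [this]
      refine (norm_sub_le _ _).trans ((add_le_add_left (norm_sub_le _ _) _).trans ?_)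
      linarith only [e1, e2, e4]
    rw [hP₀, T4, (T3 _).2.2.1] at e3
    have h0 := (T3 (pe (sh x S s) (G i - R i))).1
    rw [Complex.norm_real, Real.norm_of_nonneg (by positivity)] at e3
    rcases h0.eq_or_lt with h0 | h0
    · rw [← h0]
      positivity
    · nlinarith only [e3, h0]
  have hZ2 : n2 τ (pe (sh x S s) (G i) - pe x (R i)) ≤ 4 * δ := by
    have : pe (sh x S s) (G i) - pe x (R i) = (pe (sh x S s) (G i) - pe (sh x S s) (R i)) +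
        (pe (sh x S s) (R i) - pe x (R i)) := by abel
    rw [this]
    refine (T2 _ _).trans ?_
    have := (T3 (pe (sh x S s) (R i) - pe x (R i))).2.1
    linarith only [hZ, hcl, this]
  have h0 := (T3 (pe x P)).1
  have e1 := hR' i P
  have e2 := (hG i P).2
  have e3 : ‖τ ((pe (sh x S s) (G i) - pe x (R i)) * pe x P)‖ ≤ 4 * δ * n2 τ (pe x P) :=
    (T1 _ _).trans (mul_le_mul_of_nonneg_right hZ2 h0)
  have : dp τ x i P - τ (cp x i Q * pe x P) = (dp τ x i P - τ (pe x (R i) * pe x P)) +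
      (τ (pe (sh x S s) (G i) * pe x P) - τ (cp x i Q * pe x P)) -
      τ ((pe (sh x S s) (G i) - pe x (R i)) * pe x P) := by
    rw [sub_mul, map_sub]
    ring
  rw [this]
  refine (norm_sub_le _ _).trans ((add_le_add_left (norm_add_le _ _) _).trans ?_)
  have : 6 * δ * n2 τ (pe x P) ≤ ε * n2 τ (pe x P) := mul_le_mul_of_nonneg_right hδε h0
  linarith only [e1, e2, e3, this]

end Pool.CGS
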