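import Pool.Agent.H18.CGR.All
import Pool.Agent.H34.CGS.STR
import Pool.Agent.H1.CGS.BDD
import Pool.Agent.H1.CGS.PCT
import Pool.Agent.H2.CGS.MXQ
import Pool.Agent.H3.CGS.SDC
import Pool.Agent.H24.CGS.QEW
import Pool.Agent.H25.CGS.EXP
import Pool.Agent.H31.CGS.SDA
import Pool.Agent.H31.CGS.SDB
import Pool.Agent.H36.CGS.DVE
import Pool.Agent.H40.CGS.QEX
import Pool.Agent.H41.CGS.RZX
import Pool.Agent.H50.CGS.ROT
import Pool.Agent.H52.CGS.KEY
import Pool.Agent.H63.CGS.EXW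
import Pool.Agent.H65.CGS.PAL
import Pool.Agent.H66.CGS.CGT
import Pool.Agent.H66.CGS.TWO
import Pool.Agent.H72.CGS.DVC
import Pool.Agent.H80.CGS.MXD

/-!
Board cgs (MP_286349_an), helper34: the assembly.
-/

set_option autoImplicit false

noncomputable section

namespace Pool.CGS

open Pool.CGR

theorem mxd' : MXDStmt := mxd_thm dvc_thm
theorem mxq' : MXQStmt := mxq_thm mxd' dve_thm
theorem sdb' : SDBStmt := sdb_thm sda_thm
theorem exw' : EXWStmt := exw_thm sda_thm sdb'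
theorem exp' : EXPStmt := exp_thm exw'
theorem rot' : ROTStmt := rot_thm dvc_thm
theorem qew' : QEWStmt := qew_thm rot' sdc_thm cgt_thm dvc_thm
theorem qex' : QEXStmt := qex_thm qew' cgt_thm mxd'
theorem rzx' : RZXStmt := rzx_thm two_thm pal_thm
theorem bdd' : BDDStmt := bdd_thm mxq'
theorem key' : KEYStmt := key_thm exp' mxq' two_thm pal_thm

theorem proj_of_yes' (m : ℕ) (A : Type) [CStarAlgebra A] (τ : A →ₗ[ℂ] ℂ) (hτ : IsTrace τ)
    (x S : Fin m → A) (h : IsSemi τ x S) (s : ℂ) (hy : Yes τ (sh x S s)) :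
    Proj τ x (sh x S s) :=
  proj_of_yes pal_thm qex' m A τ hτ x S h s hy

theorem yes_of_proj' (m : ℕ) (A : Type) [CStarAlgebra A] (τ : A →ₗ[ℂ] ℂ) (hτ : IsTrace τ)
    (x S : Fin m → A) (hx : ∀ i, IsSelfAdjoint (x i)) (hS : ∀ i, IsSelfAdjoint (S i))
    (h : IsSemi τ x S) (hc : HasConj τ x)
    (hs : ∀ δ : ℝ, 0 < δ → ∃ s : ℝ, 0 < s ∧ s < δ ∧ Proj τ x (sh x S s)) : Yes τ x :=
  yes_of_proj pal_thm two_thm rzx' pct_thm key' m A τ hτ x S hx hS h hc hs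

theorem proj_large (m : ℕ) (A : Type) [CStarAlgebra A] (τ : A →ₗ[ℂ] ℂ) (hτ : IsTrace τ)
    (x S : Fin m → A) (hx : ∀ i, IsSelfAdjoint (x i)) (hS : ∀ i, IsSelfAdjoint (S i))
    (h : IsSemi τ x S) (s : ℝ) (hs : 0 < s) (hxs : ∀ i, 100 * m * ‖x i‖ ≤ s) :
    Proj τ x (sh x S s) := by
  have hR : ∃ R : ℝ, (∀ i, ‖x i‖ ≤ R) ∧ 100 * m * R ≤ s := by
    rcases Nat.eq_zero_or_pos m with h0 | h0
    · subst h0
      exact ⟨0, fun i => i.elim0, by simpa using hs.le⟩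
    · have hm : (0 : ℝ) < 100 * m := by positivity
      refine ⟨s / (100 * m), fun i => ?_, ?_⟩
      · rw [le_div_iff₀ hm]
        linarith only [hxs i]
      · rw [mul_div_cancel₀ _ hm.ne']
  obtain ⟨R, hR1, hR2⟩ := hR
  obtain ⟨J, H, hJ, hH⟩ := main' m A τ hτ x S s R hs hx hS h hR1 hR2
  refine proj_of_lim pal_thm qex' two_thm m A τ hτ x S h s J (fun i P => ?_) H hH
  unfold pe dp Finsupp.sum
  rw [Finset.mul_sum, map_sum]
  refine Finset.sum_congr rfl fun w _ => ?_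
  rw [mul_smul_comm, map_smul, smul_eq_mul]
  congr 1
  exact hJ i w

end Pool.CGS
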