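import Pool.Agent.H18.CGR.Stmts2

/-!
Board cgs (MP_286349_an, conjugate variables and cyclic gradients), helper34: row XXX = `def XXXStmt`.

THEOREM (`FINStmt`, `BDDStmt`): `x` a self-adjoint tuple in a C*-algebra with faithful trace, `S` free
semicircular, free from `x` (`IsSemi`), the conjugate variables of `x` exist (`HasConj`).  If the
answer of the question is yes (`Yes`) for `x + s S` for arbitrarily small `s > 0`, then it is yes for `x`;
the conjugate variables of `x + s S` are bounded (`BDD`).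

IDEA.  `E` = expectation onto `ℂ⟨x⟩` (never written: we only test against words in `x`).  (EXW) `E` of a
word `W` in `x, S` is a polynomial `W'` in `x`, and `(τ ⊗ τ)(∂_(x_i) W) = (τ ⊗ τ)(∂_i W')`.  (QEW) the
derivative of `τ(W)` in direction `h` (a tuple in `ℂ⟨x⟩`) is `∑ τ(D_i Q · h_i)` for a polynomial `Q`:
so `E` of a cyclic gradient is a cyclic gradient (`QEX`).  (RZX) the conjugate variable of `x` is
approximated by a polynomial `R(x)`; (KEY) the conjugate variable of `x + s S` is then also close to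
`R(x)`, which is close to `R(x + s S)`.  `FIN` puts this together.

Files: `Pool/Agent/H<k>/CGS/XXX.lean`, `import Pool.Agent.H34.CGS.Stmts` (nothing else), `namespace
Pool.CGS`, `open Pool.CGR`, helper lemmas in a sub-namespace, `theorem xxx_thm (h1 : YYYStmt) ... :
XXXStmt` with the needs of the row in the order of the table (fewer is fine).
Below `z = Sum.elim x S`, `φ W = τ (ev z W)`, `x^s = x + s S`.
-/

set_option autoImplicit false

noncomputable section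

open Filter
open scoped Topology

namespace Pool.CGS

open Pool.CGR

/-- The norm of `L²`. -/
def n2 {A : Type} [CStarAlgebra A] (τ : A →ₗ[ℂ] ℂ) (a : A) : ℝ := Real.sqrt (τ (star a * a)).re

/-- The value of the polynomial `P` at `x`. -/
def pe {α A : Type} [Ring A] [Algebra ℂ A] (x : α → A) (P : List α →₀ ℂ) : A :=
  P.sum fun w r => r • ev x w

/-- `(τ ⊗ τ)(∂_i P)` at `x`. -/
def dp {α A : Type} [DecidableEq α] [Ring A] [Algebra ℂ A] (τ : A →ₗ[ℂ] ℂ) (x : α → A) (i : α)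
    (P : List α →₀ ℂ) : ℂ :=
  P.sum fun w r => r * dq (fun w => τ (ev x w)) i w

/-- The cyclic gradient `D_i P` at `x`. -/
def cp {α A : Type} [DecidableEq α] [Ring A] [Algebra ℂ A] (x : α → A) (i : α)
    (P : List α →₀ ℂ) : A :=
  P.sum fun w r => r • cg x i w

/-- The derivative of the word `w` at `x` in the direction `a` at the letter `i`: the sum of
`u(x) a v(x)` over all splittings `w = u i v`. -/
def dv {α B : Type} [DecidableEq α] [Ring B] (x : α → B) (i : α) (a : B) (w : List α) : B :=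
  ∑ k ∈ Finset.range w.length,
    if w[k]? = some i then ev x (w.take k) * a * ev x (w.drop (k + 1)) else 0

/-- The expansion of the word `w` in the letters `x_i + s S_i`. -/
def mix {m : ℕ} (s : ℂ) : List (Fin m) → (List (Fin m ⊕ Fin m) →₀ ℂ)
  | [] => Finsupp.single [] 1
  | i :: w => (mix s w).mapDomain (fun W => Sum.inl i :: W) +
      s • (mix s w).mapDomain (fun W => Sum.inr i :: W)

/-- The expansion of a polynomial. -/
def mixp {m : ℕ} (s : ℂ) (P : List (Fin m) →₀ ℂ) : List (Fin m ⊕ Fin m) →₀ ℂ :=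
  P.sum fun w r => r • mix s w

/-- `x + s S` -/
def sh {m : ℕ} {A : Type} [Ring A] [Algebra ℂ A] (x S : Fin m → A) (s : ℂ) : Fin m → A :=
  fun i => x i + s • S i

/-- The operator `a ↦ τ(a) 1`. -/
def ee {A : Type} [Ring A] [Algebra ℂ A] (τ : A →ₗ[ℂ] ℂ) : Module.End ℂ A := τ.smulRight (1 : A)

/-- The conjugate variables of `x` exist: `P ↦ (τ ⊗ τ)(∂_i P)` is bounded for the norm of `L²`. -/
def HasConj {m : ℕ} {A : Type} [CStarAlgebra A] (τ : A →ₗ[ℂ] ℂ) (x : Fin m → A) : Prop :=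
  ∃ C : ℝ, ∀ (i : Fin m) (P : List (Fin m) →₀ ℂ), ‖dp τ x i P‖ ≤ C * n2 τ (pe x P)

/-- The conjugate variables exist and are limits in `L²` of cyclic gradients of polynomials. -/
def Yes {m : ℕ} {A : Type} [CStarAlgebra A] (τ : A →ₗ[ℂ] ℂ) (x : Fin m → A) : Prop :=
  ∀ ε : ℝ, 0 < ε → ∃ H : List (Fin m) →₀ ℂ, ∀ (i : Fin m) (P : List (Fin m) →₀ ℂ),
    ‖dp τ x i P - τ (cp x i H * pe x P)‖ ≤ ε * n2 τ (pe x P)

/-! ### Words -/

/-- **DVC** (rules for `dv`).  (2) `Finset.sum_range_succ'`; (3) induction on `u`; (4) `mul_add` etc. -/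
def DVCStmt : Prop :=
  ∀ (α B : Type) [DecidableEq α] [Ring B] (x : α → B) (i : α) (a : B),
    dv x i a [] = 0 ∧
    (∀ (j : α) (w : List α),
      dv x i a (j :: w) = (if j = i then a * ev x w else 0) + x j * dv x i a w) ∧
    (∀ u v : List α, dv x i a (u ++ v) = dv x i a u * ev x v + ev x u * dv x i a v) ∧
    (∀ (b : B) (w : List α), dv x i (a + b) w = dv x i a w + dv x i b w)

/-- **CGT**.  Term by term: `τ (v(x) u(x) a) = τ (u(x) a v(x))`. -/
def CGTStmt : Prop :=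
  ∀ (α A : Type) [DecidableEq α] [Ring A] [Algebra ℂ A] (τ : A →ₗ[ℂ] ℂ),
    (∀ a b, τ (a * b) = τ (b * a)) → ∀ (x : α → A) (i : α) (a : A) (w : List α),
      τ (cg x i w * a) = τ (dv x i a w)

/-- **DVE** (`dq` is a derivative in the algebra of the linear operators of `A`, in the direction
`ee τ`).  `ev (fun j => LinearMap.mulLeft ℂ (x j)) w = LinearMap.mulLeft ℂ (ev x w)` (induction), then
term by term. -/
def DVEStmt : Prop :=
  ∀ (α A : Type) [DecidableEq α] [Ring A] [Algebra ℂ A] (τ : A →ₗ[ℂ] ℂ) (x : α → A) (i : α)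
    (w : List α), dq (fun w => τ (ev x w)) i w =
      τ ((dv (fun j => (LinearMap.mulLeft ℂ (x j) : Module.End ℂ A)) i (ee τ) w) 1)

/-- **MXD** (expansion, needs DVC).  Induction on `w`; `Finsupp.sum_mapDomain_index`,
`Finsupp.sum_smul_index`, `Finsupp.sum_add_index'`; (1) `(x_i + s S_i) * ev x^s w`; (2), (3) with
DVC (2): for `inl i` the letters `inr j` do not count, for `inr i` the letters `inl j`. -/
def MXDStmt : Prop :=
  ∀ (m : ℕ) (B : Type) [Ring B] [Algebra ℂ B] (x S : Fin m → B) (s : ℂ) (w : List (Fin m)),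
    ev (sh x S s) w = pe (Sum.elim x S) (mix s w) ∧
    (∀ (i : Fin m) (a : B), dv (sh x S s) i a w =
      (mix s w).sum fun W r => r • dv (Sum.elim x S) (Sum.inl i) a W) ∧
    ∀ (i : Fin m) (a : B), s • dv (sh x S s) i a w =
      (mix s w).sum fun W r => r • dv (Sum.elim x S) (Sum.inr i) a W

/-- **MXQ** (needs MXD, DVE).  (1) linearity; (2), (3): by DVE for words; `MXD` in `B = Module.End ℂ A`
with `LinearMap.mulLeft ℂ (x_i + s S_i) = mulLeft (x_i) + s • mulLeft (S_i)`. -/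
def MXQStmt : Prop :=
  ∀ (m : ℕ) (A : Type) [Ring A] [Algebra ℂ A] (τ : A →ₗ[ℂ] ℂ) (x S : Fin m → A) (s : ℂ)
    (P : List (Fin m) →₀ ℂ),
    pe (sh x S s) P = pe (Sum.elim x S) (mixp s P) ∧
    (∀ i, dp τ (sh x S s) i P = dp τ (Sum.elim x S) (Sum.inl i) (mixp s P)) ∧
    ∀ i, s * dp τ (sh x S s) i P = dp τ (Sum.elim x S) (Sum.inr i) (mixp s P)

/-- **PAL** (polynomials).  (1)-(3) `Finsupp`; (4) `ev` of a concatenation; (5) `cg x i w` is a sum of
words; (6) `star (ev x w) = ev x w.reverse`. -/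
def PALStmt : Prop :=
  ∀ (α A : Type) [DecidableEq α] [CStarAlgebra A] (τ : A →ₗ[ℂ] ℂ) (x : α → A),
    (∀ P Q : List α →₀ ℂ, pe x (P + Q) = pe x P + pe x Q ∧ pe x (P - Q) = pe x P - pe x Q) ∧
    (∀ (i : α) (P Q : List α →₀ ℂ), dp τ x i (P + Q) = dp τ x i P + dp τ x i Q) ∧
    (∀ (r : ℂ) (P : List α →₀ ℂ), pe x (r • P) = r • pe x P ∧
      ∀ i : α, dp τ x i (r • P) = r * dp τ x i P ∧ cp x i (r • P) = r • cp x i P) ∧
    (∀ P Q : List α →₀ ℂ, ∃ R : List α →₀ ℂ, pe x R = pe x P * pe x Q) ∧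
    (∀ (i : α) (P : List α →₀ ℂ), ∃ R : List α →₀ ℂ, pe x R = cp x i P) ∧
    ((∀ i, IsSelfAdjoint (x i)) → ∀ P : List α →₀ ℂ, ∃ R : List α →₀ ℂ, pe x R = star (pe x P))

/-! ### The expectation of words in `x`, `S` -/

/-- **SDA**.  Left side `= τ (S_j * ev z (b ++ (c ++ a).map inl))` (`IsTrace.comm`); `IsSemi`; only the
positions `k < |b|` have the letter `inr j`; `IsTrace.comm` again. -/
def SDAStmt : Prop :=
  ∀ (m : ℕ) (A : Type) [CStarAlgebra A] (τ : A →ₗ[ℂ] ℂ), IsTrace τ → ∀ x S : Fin m → A,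
    IsSemi τ x S → ∀ (j : Fin m) (a c : List (Fin m)) (b : List (Fin m ⊕ Fin m)),
      τ (ev (Sum.elim x S) (a.map Sum.inl ++ Sum.inr j :: b) * ev x c) =
        ∑ k ∈ Finset.range b.length, if b[k]? = some (Sum.inr j) then
          τ (ev (Sum.elim x S) (b.take k)) *
            τ (ev (Sum.elim x S) (a.map Sum.inl ++ b.drop (k + 1)) * ev x c) else 0

/-- **SDB** (needs SDA).  Left side: the splittings at `inl i` in `a` give
`∑_{k<|a|, a_k = i} φ(a.take k) φ(a.drop (k+1) ++ inr j :: b)`, those in `b` give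
`∑_{k<|b|, b_k = inl i} φ(a ++ inr j :: b.take k) φ(b.drop (k+1))`.  Apply SDA (`c = []`) to the second
factor, resp. to the first one with `b.take k`.  Right side: for `l` with `b_l = inr j` the splittings
of `a ++ b.drop (l+1)` in `a`, and in `b.drop (l+1)` (position `k - l - 1`, `l < k`).  Exchange the sums. -/
def SDBStmt : Prop :=
  ∀ (m : ℕ) (A : Type) [CStarAlgebra A] (τ : A →ₗ[ℂ] ℂ), IsTrace τ → ∀ x S : Fin m → A,
    IsSemi τ x S → ∀ (i j : Fin m) (a : List (Fin m)) (b : List (Fin m ⊕ Fin m)),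
      dq (fun W => τ (ev (Sum.elim x S) W)) (Sum.inl i) (a.map Sum.inl ++ Sum.inr j :: b) =
        ∑ k ∈ Finset.range b.length, if b[k]? = some (Sum.inr j) then
          τ (ev (Sum.elim x S) (b.take k)) *
            dq (fun W => τ (ev (Sum.elim x S) W)) (Sum.inl i) (a.map Sum.inl ++ b.drop (k + 1))
          else 0

/-- **EXW** (needs SDA, SDB).  Strong induction on the length of `W`.  No letter `inr`:
`W = a.map inl`, `W' = single a 1`.  Otherwise `W = a.map inl ++ inr j :: b` (first letter `inr`):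
`W' = ∑_{k<|b|, b_k = inr j} φ(b.take k) • (a.map inl ++ b.drop (k+1))'`. -/
def EXWStmt : Prop :=
  ∀ (m : ℕ) (A : Type) [CStarAlgebra A] (τ : A →ₗ[ℂ] ℂ), IsTrace τ → ∀ x S : Fin m → A,
    IsSemi τ x S → ∀ W : List (Fin m ⊕ Fin m), ∃ W' : List (Fin m) →₀ ℂ,
      (∀ c : List (Fin m), τ (ev (Sum.elim x S) W * ev x c) = τ (pe x W' * ev x c)) ∧
      ∀ i : Fin m, dq (fun W => τ (ev (Sum.elim x S) W)) (Sum.inl i) W = dp τ x i W'

/-- **EXP** (needs EXW).  Linear combinations; also of the words `c`. -/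
def EXPStmt : Prop :=
  ∀ (m : ℕ) (A : Type) [CStarAlgebra A] (τ : A →ₗ[ℂ] ℂ), IsTrace τ → ∀ x S : Fin m → A,
    IsSemi τ x S → ∀ W : List (Fin m ⊕ Fin m) →₀ ℂ, ∃ W' : List (Fin m) →₀ ℂ,
      (∀ P : List (Fin m) →₀ ℂ,
        τ (pe (Sum.elim x S) W * pe x P) = τ (pe x W' * pe x P)) ∧
      ∀ i : Fin m, dp τ (Sum.elim x S) (Sum.inl i) W = dp τ x i W'

/-! ### The expectation of cyclic gradients -/

/-- **ROT**.  `DVC` (3) and `τ (a b) = τ (b a)`. -/
def ROTStmt : Prop :=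
  ∀ (α A : Type) [DecidableEq α] [Ring A] [Algebra ℂ A] (τ : A →ₗ[ℂ] ℂ),
    (∀ a b, τ (a * b) = τ (b * a)) → ∀ (x : α → A) (i : α) (a : A) (u v : List α),
      τ (dv x i a (u ++ v)) = τ (dv x i a (v ++ u))

/-- **SDC**.  `dv z (inl i) (ev x c) W = ∑_{l, W_l = inl i} ev z (W.take l ++ c.map inl ++ W.drop (l+1))`;
`IsSemi` for each of these words; the letter `inr j` at position `k < l` of `W.take l` gives
`φ(W.take k) φ((W.take l).drop (k+1) ++ c ++ W.drop (l+1))`, in `W.drop (l+1)` (position `k > l` of `W`)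
`φ(W.take l ++ c ++ (W.take k).drop (l+1)) φ(W.drop (k+1))`; exchange the sums over `k` and `l`. -/
def SDCStmt : Prop :=
  ∀ (m : ℕ) (A : Type) [CStarAlgebra A] (τ : A →ₗ[ℂ] ℂ), IsTrace τ → ∀ x S : Fin m → A,
    IsSemi τ x S → ∀ (i j : Fin m) (c : List (Fin m)) (W : List (Fin m ⊕ Fin m)),
      τ (S j * dv (Sum.elim x S) (Sum.inl i) (ev x c) W) =
        ∑ k ∈ Finset.range W.length, if W[k]? = some (Sum.inr j) then
          τ (dv (Sum.elim x S) (Sum.inl i) (ev x c) (W.take k)) *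
              τ (ev (Sum.elim x S) (W.drop (k + 1))) +
            τ (ev (Sum.elim x S) (W.take k)) *
              τ (dv (Sum.elim x S) (Sum.inl i) (ev x c) (W.drop (k + 1))) else 0

/-- **QEW** (needs ROT, SDC, CGT, DVC).  Strong induction on the length of `W`.  No letter `inr`:
`W = a.map inl`, `Q = single a 1`, `dv z (inl i) h (a.map inl) = dv x i h a`, CGT.  Otherwise
`W = u ++ inr j :: v`; by ROT replace it by `inr j :: (v ++ u)`; `dv` of this is `S_j * dv (v ++ u)`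
(DVC (2)); by SDC, `Q = ∑_k (φ(drop (k+1)) Q_(take k) + φ(take k) Q_(drop (k+1)))` for the word
`v ++ u`. -/
def QEWStmt : Prop :=
  ∀ (m : ℕ) (A : Type) [CStarAlgebra A] (τ : A →ₗ[ℂ] ℂ), IsTrace τ → ∀ x S : Fin m → A,
    IsSemi τ x S → ∀ W : List (Fin m ⊕ Fin m), ∃ Q : List (Fin m) →₀ ℂ,
      ∀ (i : Fin m) (c : List (Fin m)),
        τ (dv (Sum.elim x S) (Sum.inl i) (ev x c) W) = τ (cp x i Q * ev x c)

/-- **QEX** (needs QEW, CGT, MXD).  For a word `w` of `H`: `τ (cg x^s i w * h) = τ (dv x^s i h w)` (CGT)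
`= ∑ r τ (dv z (inl i) h W)` over the words `W` of `mix s w` (MXD (2)), QEW; linear combinations. -/
def QEXStmt : Prop :=
  ∀ (m : ℕ) (A : Type) [CStarAlgebra A] (τ : A →ₗ[ℂ] ℂ), IsTrace τ → ∀ x S : Fin m → A,
    IsSemi τ x S → ∀ (s : ℂ) (H : List (Fin m) →₀ ℂ), ∃ Q : List (Fin m) →₀ ℂ,
      ∀ (i : Fin m) (P : List (Fin m) →₀ ℂ),
        τ (cp (sh x S s) i H * pe x P) = τ (cp x i Q * pe x P)

/-! ### The norm of `L²` -/

/-- **TWO**.  `⟨a, b⟩ = τ (star a * b)` is a positive semidefinite hermitian form (`IsTrace.pos`;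
`τ (star a) = conj τ a` by polarisation of `im = 0`), Cauchy-Schwarz; (3) `IsTrace.norm`, `‖star a * a‖ =
‖a‖²`; (4) `IsTrace.comm`. -/
def TWOStmt : Prop :=
  ∀ (A : Type) [CStarAlgebra A] (τ : A →ₗ[ℂ] ℂ), IsTrace τ →
    (∀ a b, ‖τ (a * b)‖ ≤ n2 τ a * n2 τ b) ∧ (∀ a b, n2 τ (a + b) ≤ n2 τ a + n2 τ b) ∧
    (∀ a, 0 ≤ n2 τ a ∧ n2 τ a ≤ ‖a‖ ∧ n2 τ (star a) = n2 τ a ∧ n2 τ (-a) = n2 τ a) ∧
    (∀ a, τ (a * star a) = ((n2 τ a ^ 2 : ℝ) : ℂ)) ∧ ∀ (r : ℂ) (a : A), n2 τ (r • a) = ‖r‖ * n2 τ a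

/-- **RZX** (Riesz representation, approximately; needs TWO, PAL).  Let `c` be the infimum of the `C`
with `‖d P‖ ≤ C n2 (pe x P)` for all `P` (attained).  If `c = 0`: `R = 0`.  Otherwise there is `P₀` with
`n2 (pe x P₀) = 1` and `d P₀` real, `≥ c - η`.  Let `R` be a polynomial with `pe x R = d(P₀) star (pe x
P₀)`, `ψ P = d P - τ (pe x R * pe x P)`.  `ψ P₀ = 0`.  If `τ (star (pe x P₀) * pe x P) = 0` and
`n2 (pe x P) ≤ 1`, then for all real `t` (after multiplying `P` by a phase) `d P₀ + t ‖d P‖ ≤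
c √(1 + t²)`, so `(d P₀)² + ‖d P‖² ≤ c²`, `‖ψ P‖ = ‖d P‖ ≤ √(2 c η)`.  For general `P` subtract
`τ (star (pe x P₀) * pe x P) • P₀`.  (Or: complete `ℂ⟨x⟩` and use `InnerProductSpace.toDual` and
density.) -/
def RZXStmt : Prop :=
  ∀ (m : ℕ) (A : Type) [CStarAlgebra A] (τ : A →ₗ[ℂ] ℂ), IsTrace τ → ∀ x : Fin m → A,
    (∀ i, IsSelfAdjoint (x i)) → ∀ (d : (List (Fin m) →₀ ℂ) →ₗ[ℂ] ℂ) (C : ℝ),
    (∀ P, ‖d P‖ ≤ C * n2 τ (pe x P)) → ∀ δ : ℝ, 0 < δ → ∃ R : List (Fin m) →₀ ℂ,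
      ∀ P, ‖d P - τ (pe x R * pe x P)‖ ≤ δ * n2 τ (pe x P)

/-- **PCT**.  `s ↦ pe (sh x S s) R` is continuous (`Finsupp.sum` = finite sum of products), `pe (sh x S
0) R = pe x R`. -/
def PCTStmt : Prop :=
  ∀ (m : ℕ) (A : Type) [CStarAlgebra A] (x S : Fin m → A) (R : List (Fin m) →₀ ℂ) (δ : ℝ), 0 < δ →
    ∃ s₀ : ℝ, 0 < s₀ ∧ ∀ s : ℝ, |s| < s₀ → ‖pe (sh x S s) R - pe x R‖ ≤ δ

/-! ### Conclusion -/

/-- **BDD** (the conjugate variables of `x + s S`; needs MXQ).  `s dp x^s i P = dp z (inr i) (mixp s P)`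
(MXQ (3)) `= τ (S_i * pe z (mixp s P))` (`IsSemi`, linear) `= τ (S_i * pe x^s P)`. -/
def BDDStmt : Prop :=
  ∀ (m : ℕ) (A : Type) [CStarAlgebra A] (τ : A →ₗ[ℂ] ℂ) (x S : Fin m → A), IsSemi τ x S →
    ∀ (s : ℂ) (i : Fin m) (P : List (Fin m) →₀ ℂ),
      s * dp τ (sh x S s) i P = τ (S i * pe (sh x S s) P)

/-- **KEY** (needs EXP, MXQ, TWO, PAL).  `W = mixp s P`, `W'` from EXP: `dp x^s i P = dp z (inl i) W =
dp x i W'`, and `τ (pe x R * pe x^s P) = τ (pe z W * pe x R) = τ (pe x W' * pe x R)`.  So the left side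
is `≤ δ n2 (pe x W')`; and `n2 (pe x W')² = τ (pe x W' * star (pe x W')) = τ (pe z W * star (pe x W'))`
(`star (pe x W')` is a polynomial, PAL (6)) `≤ n2 (pe x^s P) n2 (pe x W')`. -/
def KEYStmt : Prop :=
  ∀ (m : ℕ) (A : Type) [CStarAlgebra A] (τ : A →ₗ[ℂ] ℂ), IsTrace τ → ∀ x S : Fin m → A,
    (∀ i, IsSelfAdjoint (x i)) → IsSemi τ x S → ∀ (i : Fin m) (R : List (Fin m) →₀ ℂ) (δ : ℝ),
    0 ≤ δ → (∀ P, ‖dp τ x i P - τ (pe x R * pe x P)‖ ≤ δ * n2 τ (pe x P)) →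
    ∀ (s : ℂ) (P : List (Fin m) →₀ ℂ),
      ‖dp τ (sh x S s) i P - τ (pe x R * pe (sh x S s) P)‖ ≤ δ * n2 τ (pe (sh x S s) P)

/-- **FIN** (needs KEY, QEX, RZX, PCT, TWO, PAL).  Let `ε > 0`, `δ = ε / 5`; `R_i` from RZX (`d = dp τ x i`,
linear by PAL (2), (3)); `s₀` from PCT for all `R_i` and `δ`; `0 < s < s₀` with `Yes` for `x^s`; `H` from
`Yes` for `δ`; `T = cp x^s i H`; `Q` from QEX.  `Z = T - pe x^s R_i` is a polynomial in `x^s` (PAL (5)),
also `star Z` (`x^s` is self-adjoint), `= pe x^s P₀`.  For all `P`: `‖τ (Z pe x^s P)‖ ≤ 3 δ n2 (pe x^s P)`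
(`Yes`, KEY, PCT with TWO); for `P = P₀`: `n2 Z ≤ 3 δ`.  So `n2 (T - pe x R_i) ≤ 4 δ` and
`‖dp x i P - τ (T pe x P)‖ ≤ 5 δ n2 (pe x P)`; `τ (T pe x P) = τ (cp x i Q * pe x P)`. -/
def FINStmt : Prop :=
  ∀ (m : ℕ) (A : Type) [CStarAlgebra A] (τ : A →ₗ[ℂ] ℂ), IsTrace τ → ∀ x S : Fin m → A,
    (∀ i, IsSelfAdjoint (x i)) → (∀ i, IsSelfAdjoint (S i)) → IsSemi τ x S → HasConj τ x →
    (∀ δ : ℝ, 0 < δ → ∃ s : ℝ, 0 < s ∧ s < δ ∧ Yes τ (sh x S s)) → Yes τ x

end Pool.CGS
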